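import Mathlib

set_option autoImplicit false
set_option linter.unusedSectionVars false

/-!
# Two families of finite sets in which every member of the first meets every member of the second
in exactly one point

If both families cover the ground set and all members have at least `k ≥ 2` elements, then the ground
set has at least `4 (k - 1)` elements.
-/

open Finset

namespace Pool.Agent.K4H82.Pierce

/-- Saddle point of a finite matrix game. -/
theorem game {I J : Type} [Fintype I] [Fintype J] [Nonempty I] [Nonempty J] (a : I → J → ℝ) :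
    ∃ (μ : J → ℝ) (l : I → ℝ) (θ : ℝ), (∀ j, 0 ≤ μ j) ∧ ∑ j, μ j = 1 ∧ (∀ i, 0 ≤ l i) ∧
      ∑ i, l i = 1 ∧ (∀ i, ∑ j, μ j * a i j ≤ θ) ∧ (∀ j, θ ≤ ∑ i, l i * a i j) := by
  classical
  let f : (J → ℝ) → (I → ℝ) → ℝ := fun μ l => ∑ i, l i * ∑ j, μ j * a i j
  have hc1 : ∀ l, Continuous (fun μ => f μ l) := fun l => by
    simp only [f]
    fun_prop
  have hc2 : ∀ μ, Continuous (fun l => f μ l) := fun μ => by
    simp only [f]
    fun_prop
  obtain ⟨μ, hμ, l, hl, hs⟩ := Sion.exists_isSaddlePointOn (X := stdSimplex ℝ J)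
    (Y := stdSimplex ℝ I) (f := f)
    (by
      obtain ⟨j⟩ := ‹Nonempty J›
      exact ⟨_, single_mem_stdSimplex ℝ j⟩)
    (convex_stdSimplex ℝ J) (isCompact_stdSimplex ℝ J)
    (fun y _ => (hc1 y).lowerSemicontinuous.lowerSemicontinuousOn _)
    (fun y _ => by
      apply ConvexOn.quasiconvexOn
      refine ⟨convex_stdSimplex ℝ J, ?_⟩
      intro x _ x' _ s t _ _ _
      apply le_of_eq
      simp only [f, Pi.add_apply, Pi.smul_apply, smul_eq_mul, Finset.mul_sum]
      rw [← Finset.sum_add_distrib]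
      refine Finset.sum_congr rfl fun i _ => ?_
      rw [← Finset.sum_add_distrib]
      refine Finset.sum_congr rfl fun j _ => ?_
      ring)
    (convex_stdSimplex ℝ I)
    (by
      obtain ⟨i⟩ := ‹Nonempty I›
      exact ⟨_, single_mem_stdSimplex ℝ i⟩)
    (isCompact_stdSimplex ℝ I)
    (fun x _ => (hc2 x).upperSemicontinuous.upperSemicontinuousOn _)
    (fun x _ => by
      apply ConcaveOn.quasiconcaveOn
      refine ⟨convex_stdSimplex ℝ I, ?_⟩
      intro y _ y' _ s t _ _ _
      apply le_of_eq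
      simp only [f, Pi.add_apply, Pi.smul_apply, smul_eq_mul, Finset.mul_sum]
      rw [← Finset.sum_add_distrib]
      refine Finset.sum_congr rfl fun i _ => ?_
      rw [← Finset.sum_add_distrib]
      refine Finset.sum_congr rfl fun j _ => ?_
      ring)
  refine ⟨μ, l, f μ l, hμ.1, hμ.2, hl.1, hl.2, fun i => ?_, fun j => ?_⟩
  · have h1 := hs μ hμ (Pi.single i 1) (single_mem_stdSimplex ℝ i)
    refine le_trans (le_of_eq ?_) h1
    simp [f, Pi.single_apply]
  · have h1 := hs (Pi.single j 1) (single_mem_stdSimplex ℝ j) l hl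
    refine le_trans h1 (le_of_eq ?_)
    simp [f, Pi.single_apply]

variable {ι X Y : Type} [Fintype ι] [DecidableEq ι] [Fintype X] [Fintype Y]

/-- The weight of a point. -/
noncomputable def wt (T : X → Finset ι) (x : X → ℝ) (i : ι) : ℝ :=
  ∑ a, x a * (if i ∈ T a then 1 else 0)

lemma wt_nonneg (T : X → Finset ι) (x : X → ℝ) (hx : ∀ a, 0 ≤ x a) (i : ι) : 0 ≤ wt T x i := by
  unfold wt
  refine Finset.sum_nonneg fun a _ => mul_nonneg (hx a) ?_
  split_ifs <;> norm_num

lemma sum_wt (T : X → Finset ι) (x : X → ℝ) (s : Finset ι) :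
    ∑ i ∈ s, wt T x i = ∑ a, x a * ((T a ∩ s).card : ℝ) := by
  unfold wt
  rw [Finset.sum_comm]
  refine Finset.sum_congr rfl fun a _ => ?_
  rw [← Finset.mul_sum]
  congr 1
  rw [Finset.sum_ite_mem, Finset.sum_const, nsmul_eq_mul, mul_one, Finset.inter_comm]

lemma sum_wt_ge (T : X → Finset ι) (x : X → ℝ) (hx : ∀ a, 0 ≤ x a) (hx1 : ∑ a, x a = 1) (k : ℕ)
    (hT : ∀ a, k ≤ (T a).card) : (k : ℝ) ≤ ∑ i, wt T x i := by
  rw [sum_wt]
  calc (k : ℝ) = ∑ a, x a * (k : ℝ) := by rw [← Finset.sum_mul, hx1, one_mul]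
    _ ≤ _ := by
      refine Finset.sum_le_sum fun a _ => mul_le_mul_of_nonneg_left ?_ (hx a)
      rw [Finset.inter_univ]
      exact_mod_cast hT a

lemma wt_mul (T : X → Finset ι) (U : Y → Finset ι) (x : X → ℝ) (y : Y → ℝ)
    (hx1 : ∑ a, x a = 1) (hy1 : ∑ b, y b = 1) (hTU : ∀ a b, (T a ∩ U b).card = 1) :
    ∑ i, wt T x i * wt U y i = 1 := by
  have h1 : ∀ i, wt T x i * wt U y i = ∑ b, y b * (if i ∈ U b then wt T x i else 0) := by
    intro i
    unfold wt
    rw [Finset.mul_sum]
    refine Finset.sum_congr rfl fun b _ => ?_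
    split_ifs <;> ring
  rw [Finset.sum_congr rfl fun i _ => h1 i, Finset.sum_comm]
  have h2 : ∀ b, ∑ i, y b * (if i ∈ U b then wt T x i else 0) = y b := by
    intro b
    rw [← Finset.mul_sum, Finset.sum_ite_mem, Finset.univ_inter, sum_wt]
    simp only [hTU, Nat.cast_one, mul_one, hx1]
  rw [Finset.sum_congr rfl fun b _ => h2 b, hy1]

/-- The final count. -/
lemma count (T : X → Finset ι) (U : Y → Finset ι) (k : ℕ) (hTU : ∀ a b, (T a ∩ U b).card = 1)
    (hT : ∀ a, k ≤ (T a).card) (hU : ∀ b, k ≤ (U b).card) (x : X → ℝ) (y : Y → ℝ)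
    (hx : ∀ a, 0 ≤ x a) (hy : ∀ b, 0 ≤ y b) (hx1 : ∑ a, x a = 1) (hy1 : ∑ b, y b = 1)
    (α : ℝ) (hα0 : 0 ≤ α) (hα1 : α ≤ 1) (ht : ∀ i, wt T x i ≤ α) (hu : ∀ i, wt U y i ≤ 1 - α) :
    4 * ((k : ℝ) - 1) ≤ Fintype.card ι := by
  have h0 : 0 ≤ ∑ i, (α - wt T x i) * (1 - α - wt U y i) :=
    Finset.sum_nonneg fun i _ => mul_nonneg (sub_nonneg.2 (ht i)) (sub_nonneg.2 (hu i))
  have h1 : ∑ i, (α - wt T x i) * (1 - α - wt U y i) =
      (Fintype.card ι : ℝ) * (α * (1 - α)) - (1 - α) * ∑ i, wt T x i - α * ∑ i, wt U y i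
        + ∑ i, wt T x i * wt U y i := by
    rw [Finset.mul_sum, Finset.mul_sum]
    have : (Fintype.card ι : ℝ) * (α * (1 - α)) = ∑ _i : ι, α * (1 - α) := by
      rw [Finset.sum_const, Finset.card_univ, nsmul_eq_mul]
    rw [this, ← Finset.sum_sub_distrib, ← Finset.sum_sub_distrib, ← Finset.sum_add_distrib]
    refine Finset.sum_congr rfl fun i _ => ?_
    ring
  rw [h1, wt_mul T U x y hx1 hy1 hTU] at h0
  have h2 := sum_wt_ge T x hx hx1 k hT
  have h3 := sum_wt_ge U y hy hy1 k hU
  have h4 := mul_le_mul_of_nonneg_left h2 (sub_nonneg.2 hα1)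
  have h5 := mul_le_mul_of_nonneg_left h3 hα0
  have h6 : (k : ℝ) - 1 ≤ (Fintype.card ι : ℝ) * (α * (1 - α)) := by nlinarith
  have h7 : α * (1 - α) ≤ 1 / 4 := by nlinarith [sq_nonneg (α - 1 / 2)]
  have h8 : (Fintype.card ι : ℝ) * (α * (1 - α)) ≤ (Fintype.card ι : ℝ) * (1 / 4) :=
    mul_le_mul_of_nonneg_left h7 (Nat.cast_nonneg _)
  linarith

/-- The main step: if the first family has value more than `1/2`, then the second one has a
distribution with small weights. -/
lemma step (T : X → Finset ι) (U : Y → Finset ι) (hTU : ∀ a b, (T a ∩ U b).card = 1)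
    (hU : ∀ b, 2 ≤ (U b).card) (cT : ∀ i, ∃ a, i ∈ T a) (cU : ∀ i, ∃ b, i ∈ U b)
    (x : X → ℝ) (z : ι → ℝ) (θ : ℝ) (hx1 : ∑ a, x a = 1) (hx : ∀ a, 0 ≤ x a)
    (hz : ∀ i, 0 ≤ z i) (hz1 : ∑ i, z i = 1)
    (h1 : ∀ i, wt T x i ≤ θ) (h2 : ∀ a, θ ≤ ∑ i ∈ T a, z i) (hθ : 1 / 2 < θ) :
    ∃ y : Y → ℝ, (∀ b, 0 ≤ y b) ∧ ∑ b, y b = 1 ∧ ∀ i, wt U y i ≤ 1 - θ := by
  classical
  -- complementary slackness
  have hcs : ∀ i, 0 < z i → wt T x i = θ := by
    have e1 : ∑ i, z i * wt T x i = ∑ a, x a * ∑ i ∈ T a, z i := by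
      have : ∀ i, z i * wt T x i = ∑ a, x a * (if i ∈ T a then z i else 0) := by
        intro i
        unfold wt
        rw [Finset.mul_sum]
        refine Finset.sum_congr rfl fun a _ => ?_
        split_ifs <;> ring
      rw [Finset.sum_congr rfl fun i _ => this i, Finset.sum_comm]
      refine Finset.sum_congr rfl fun a _ => ?_
      rw [← Finset.mul_sum, Finset.sum_ite_mem, Finset.univ_inter]
    have e2 : θ ≤ ∑ i, z i * wt T x i := by
      rw [e1]
      calc θ = ∑ a, x a * θ := by rw [← Finset.sum_mul, hx1, one_mul]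
        _ ≤ _ := Finset.sum_le_sum fun a _ => mul_le_mul_of_nonneg_left (h2 a) (hx a)
    have e3 : ∑ i, z i * (θ - wt T x i) ≤ 0 := by
      have : ∑ i, z i * (θ - wt T x i) = θ - ∑ i, z i * wt T x i := by
        simp only [mul_sub]
        rw [Finset.sum_sub_distrib, ← Finset.sum_mul, hz1, one_mul]
      linarith
    have e4 : ∀ i ∈ (univ : Finset ι), 0 ≤ z i * (θ - wt T x i) := fun i _ =>
      mul_nonneg (hz i) (sub_nonneg.2 (h1 i))
    have e5 : ∑ i, z i * (θ - wt T x i) = 0 := le_antisymm e3 (Finset.sum_nonneg e4)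
    intro i hi
    have e6 := (Finset.sum_eq_zero_iff_of_nonneg e4).1 e5 i (mem_univ i)
    rcases mul_eq_zero.1 e6 with h | h
    · exact absurd h (ne_of_gt hi)
    · linarith
  choose c hc using cU
  have hwt : ∀ (y : Y → ℝ), (∀ b, y b = ∑ i, if c i = b then z i else 0) → ∀ l,
      wt U y l = ∑ i, z i * (if l ∈ U (c i) then 1 else 0) := by
    intro y hy l
    unfold wt
    have : ∀ b, y b * (if l ∈ U b then (1 : ℝ) else 0) =
        ∑ i, if c i = b then z i * (if l ∈ U (c i) then (1 : ℝ) else 0) else 0 := by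
      intro b
      rw [hy b, Finset.sum_mul]
      refine Finset.sum_congr rfl fun i _ => ?_
      by_cases hb : c i = b
      · subst hb; simp
      · simp [hb]
    rw [Finset.sum_congr rfl fun b _ => this b, Finset.sum_comm]
    refine Finset.sum_congr rfl fun i _ => ?_
    simp
  -- for every point some member of the first family avoids it
  have hav : ∀ l, ∃ a, l ∉ T a := by
    intro l
    obtain ⟨l', hl', hne⟩ := Finset.exists_mem_ne (lt_of_lt_of_le (by norm_num) (hU (c l))) l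
    obtain ⟨a, ha⟩ := cT l'
    refine ⟨a, fun hla => hne ?_⟩
    exact Finset.card_le_one.1 (le_of_eq (hTU a (c l))) l' (mem_inter.2 ⟨ha, hl'⟩) l
      (mem_inter.2 ⟨hla, hc l⟩)
  refine ⟨fun b => ∑ i, if c i = b then z i else 0, fun b => ?_, ?_, fun l => ?_⟩
  · refine Finset.sum_nonneg fun i _ => ?_
    split_ifs
    · exact hz i
    · exact le_rfl
  · rw [Finset.sum_comm]
    simp [hz1]
  · rw [hwt _ (fun b => rfl) l]
    -- sum over the complement of a member
    have hcompl : ∀ a, ∑ i ∈ (T a)ᶜ, z i ≤ 1 - θ := by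
      intro a
      have := Finset.sum_add_sum_compl (T a) z
      have := h2 a
      linarith
    rcases (hz l).eq_or_lt with hl0 | hl0
    · obtain ⟨a, ha⟩ := cT l
      refine le_trans ?_ (hcompl a)
      rw [← Finset.sum_add_sum_compl (T a)]
      have hz0 : ∑ i ∈ T a, z i * (if l ∈ U (c i) then (1 : ℝ) else 0) = 0 := by
        refine Finset.sum_eq_zero fun i hi => ?_
        by_cases hil : i = l
        · rw [hil, ← hl0, zero_mul]
        · rw [if_neg, mul_zero]
          intro hlU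
          exact hil (Finset.card_le_one.1 (le_of_eq (hTU a (c i))) i (mem_inter.2 ⟨hi, hc i⟩) l
            (mem_inter.2 ⟨ha, hlU⟩))
      rw [hz0, zero_add]
      refine Finset.sum_le_sum fun i _ => ?_
      split_ifs
      · rw [mul_one]
      · rw [mul_zero]; exact hz i
    · obtain ⟨a, ha⟩ := hav l
      have hsingle : ∑ i, z i * (if l ∈ U (c i) then (1 : ℝ) else 0) = z l := by
        rw [Finset.sum_eq_single l]
        · rw [if_pos (hc l), mul_one]
        · intro i _ hil
          rcases (hz i).eq_or_lt with hi0 | hi0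
          · rw [← hi0, zero_mul]
          · rw [if_neg, mul_zero]
            intro hlU
            have e1 : ∑ j ∈ U (c i), wt T x j = 1 := by
              rw [sum_wt]
              simp only [hTU, Nat.cast_one, mul_one, hx1]
            have e2 : ∑ j ∈ ({i, l} : Finset ι), wt T x j ≤ ∑ j ∈ U (c i), wt T x j := by
              apply Finset.sum_le_sum_of_subset_of_nonneg
              · intro j hj
                rw [mem_insert, mem_singleton] at hj
                rcases hj with rfl | rfl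
                · exact hc _
                · exact hlU
              · intro j _ _
                exact wt_nonneg T x hx j
            rw [Finset.sum_pair hil, e1, hcs i hi0, hcs l hl0] at e2
            linarith
        · intro h; exact absurd (mem_univ l) h
      rw [hsingle]
      refine le_trans ?_ (hcompl a)
      exact Finset.single_le_sum (f := z) (fun i _ => hz i) (mem_compl.2 ha)

/-- The theorem on two cross-intersecting families. -/
theorem main (T : X → Finset ι) (U : Y → Finset ι) (k : ℕ) (hk : 2 ≤ k) [Nonempty X] [Nonempty Y]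
    (hTU : ∀ a b, (T a ∩ U b).card = 1) (hT : ∀ a, k ≤ (T a).card) (hU : ∀ b, k ≤ (U b).card)
    (cT : ∀ i, ∃ a, i ∈ T a) (cU : ∀ i, ∃ b, i ∈ U b) : 4 * (k - 1) ≤ Fintype.card ι := by
  classical
  have hne : Nonempty ι := by
    obtain ⟨a⟩ := ‹Nonempty X›
    have : 0 < (T a).card := lt_of_lt_of_le (by omega) (hT a)
    obtain ⟨i, _⟩ := Finset.card_pos.1 this
    exact ⟨i⟩
  suffices h : 4 * ((k : ℝ) - 1) ≤ Fintype.card ι by
    have hk1 : ((k - 1 : ℕ) : ℝ) = (k : ℝ) - 1 := by
      rw [Nat.cast_sub (by omega)]; norm_num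
    rw [← hk1] at h
    exact_mod_cast h
  have hgT := game (fun (i : ι) (a : X) => if i ∈ T a then (1 : ℝ) else 0)
  have hgU := game (fun (i : ι) (b : Y) => if i ∈ U b then (1 : ℝ) else 0)
  obtain ⟨x, z, θ, hx, hx1, hz, hz1, hxθ, hzθ⟩ := hgT
  obtain ⟨y, w, φ, hy, hy1, hw, hw1, hyφ, hwφ⟩ := hgU
  have hzT : ∀ a, θ ≤ ∑ i ∈ T a, z i := by
    intro a
    refine le_trans (hzθ a) (le_of_eq ?_)
    simp
  have hwU : ∀ b, φ ≤ ∑ i ∈ U b, w i := by
    intro b
    refine le_trans (hwφ b) (le_of_eq ?_)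
    simp
  have hUT : ∀ b a, (U b ∩ T a).card = 1 := fun b a => by rw [Finset.inter_comm]; exact hTU a b
  by_cases h1 : 1 / 2 < θ
  · obtain ⟨y', hy', hy1', hu⟩ := step T U hTU (fun b => le_trans hk (hU b)) cT cU x z θ hx1 hx hz
      hz1 hxθ hzT h1
    obtain ⟨i⟩ := hne
    have := wt_nonneg U y' hy' i
    exact count T U k hTU hT hU x y' hx hy' hx1 hy1' θ (by linarith) (by linarith [hu i]) hxθ hu
  · by_cases h2 : 1 / 2 < φ
    · obtain ⟨x', hx', hx1', ht⟩ := step U T hUT (fun b => le_trans hk (hT b)) cU cT y w φ hy1 hy hw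
        hw1 hyφ hwU h2
      obtain ⟨i⟩ := hne
      have := wt_nonneg T x' hx' i
      exact count U T k hUT hU hT y x' hy hx' hy1 hx1' φ (by linarith) (by linarith [ht i]) hyφ ht
    · exact count T U k hTU hT hU x y hx hy hx1 hy1 (1 / 2) (by norm_num) (by norm_num)
        (fun i => le_trans (hxθ i) (not_lt.1 h1)) (fun i => by
          have := le_trans (hyφ i) (not_lt.1 h2)
          have h3 : wt U y i ≤ 1 / 2 := this
          linarith)

end Pool.Agent.K4H82.Pierce
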